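import Pool.Agent.HMT.Stmts

/-!
# HMT row BLK: `σ` respects the property to be a `P`-partition
-/

open scoped Classical

namespace Pool.Agent.HMT.H13

open Pool.Agent.HMT

theorem mem_congr (P : GProp) {V : Type} [Finite V] (G : SimpleGraph V) {S T : Set V}
    (h : S = T) : P.mem (G.induce S) ↔ P.mem (G.induce T) := by
  subst h
  exact Iff.rfl

/-- BLK -/
theorem blk (Iso : IsoStmt) (Cre : CreStmt) (Coi : CoiStmt) (Edg : EdgStmt) (Con : ConStmt) :
    BlkStmt := by
  intro F P g s hIns hThin ε ε' hε A j k ψ h π hA Z hZ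
  obtain ⟨hCa, hCb, hCc⟩ := Con F ε ε' hε A s j k ψ h π hA
  set σ := F.sig ε ε' hε j k h.ne ψ with hσ
  -- one block
  have key : ∀ v : F.Vert ε, P.mem ((F.Gr ε Z).induce {w | π.r w v}) ↔
      P.mem ((F.Gr ε' (Z.map ψ.toEmbedding)).induce (σ '' {w | π.r w v})) := by
    intro v
    set B : Set (F.Vert ε) := {w | π.r w v} with hB
    rcases le_or_gt (Nat.card B) s with hs | hs
    · refine P.iso _ _ (Iso F ε ε' hε j k h.ne ψ Z B ?_)
      intro r hr hrB
      have hrA : r ∈ A := hZ hr
      have hcard : ∀ l : F.J, F.Con A (Sum.inr r) l →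
          Nat.card {v : F.J ⊕ F.R // F.Con A v l} ≤ Nat.card B := by
        intro l hl
        have hin : ∀ v' : F.J ⊕ F.R, F.Con A v' l → (Sum.inr v' : F.Vert ε) ∈ B := by
          intro v' hv'
          have h1 := hCa v' l hv'
          have h2 := hCa (Sum.inr r) l hl
          have h3 : π.r (Sum.inr (Sum.inr r)) v := hrB
          exact π.trans' (π.symm' h1) (π.trans' h2 h3)
        refine Nat.card_le_card_of_injective
          (fun x : {v : F.J ⊕ F.R // F.Con A v l} => (⟨Sum.inr x.1, hin x.1 x.2⟩ : B)) ?_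
        intro x y hxy
        have := congrArg Subtype.val hxy
        simp only [Sum.inr.injEq] at this
        exact Subtype.ext this
      by_cases hC : F.Con A (Sum.inr r) j ∨ F.Con A (Sum.inr r) k
      · rcases h.small with h1 | ⟨h2, h3⟩
        · exact h1 r hC
        · exfalso
          rcases hC with hC | hC
          · have := hcard j hC
            omega
          · have := hcard k hC
            omega
      · push Not at hC
        obtain ⟨hj, hk⟩ := hC
        rw [h.fix r hj hk]
        cases hp : F.par r with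
        | inl l =>
          have hlj : l ≠ j := by
            rintro rfl
            exact hj (Fr.Con.step r l hrA (hp ▸ Fr.Con.root l))
          have hlk : l ≠ k := by
            rintro rfl
            exact hk (Fr.Con.step r l hrA (hp ▸ Fr.Con.root l))
          simp [Fr.hat, Equiv.swap_apply_of_ne_of_ne hlj hlk]
        | inr r' =>
          have h1 : ¬ F.Con A (Sum.inr r') j := fun h1 =>
            hj (Fr.Con.step r j hrA (hp ▸ h1))
          have h2 : ¬ F.Con A (Sum.inr r') k := fun h2 =>
            hk (Fr.Con.step r k hrA (hp ▸ h2))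
          simp [Fr.hat, h.fix r' h1 h2]
    · have hiso : Nonempty ((F.Gr ε ∅).induce B ≃g (F.Gr ε' ∅).induce (σ '' B)) := by
        have := Iso F ε ε' hε j k h.ne ψ ∅ B (by simp)
        rwa [Finset.map_empty] at this
      have hcB : Nat.card B = Nat.card (σ '' B) := Nat.card_congr (Equiv.image σ B)
      refine hIns _ _ _ _ (hThin _ _ _) (hThin _ _ _) hcB hs ?_ ?_
      · rw [Edg F ε Z B, Edg F ε' (Z.map ψ.toEmbedding) (σ '' B)]
        obtain ⟨φ⟩ := hiso
        rw [Nat.card_congr φ.mapEdgeSet]
        congr 1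
        refine Nat.card_congr (Equiv.subtypeEquiv ψ ?_)
        intro r
        have hmem : ∀ x : F.Vert ε, σ x ∈ σ '' B ↔ x ∈ B := fun x =>
          Function.Injective.mem_set_image σ.injective
        have hZr : ψ r ∈ Z.map ψ.toEmbedding ↔ r ∈ Z := by
          simp
        have h2 : (Sum.inr (Sum.inr (ψ r)) : F.Vert ε') ∈ σ '' B ↔
            (Sum.inr (Sum.inr r) : F.Vert ε) ∈ B := by
          rw [← hmem (Sum.inr (Sum.inr r))]
          rfl
        constructor
        · rintro ⟨hr, -, hr2⟩
          refine ⟨hZr.2 hr, ?_, h2.2 hr2⟩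
          have hψA : ψ r ∈ A := by
            rw [← hCc]
            exact Finset.mem_map_of_mem _ (hZ hr)
          have h3 : π.r (σ.symm (Sum.inr (F.par (ψ r)))) (σ.symm (Sum.inr (Sum.inr (ψ r)))) :=
            hCb _ hψA
          have h4 : σ.symm (Sum.inr (Sum.inr (ψ r))) = Sum.inr (Sum.inr r) := by
            rw [Equiv.symm_apply_eq]
            rfl
          rw [h4] at h3
          refine ⟨σ.symm (Sum.inr (F.par (ψ r))), ?_, by simp⟩
          exact π.trans' h3 hr2
        · rintro ⟨hr, -, hr2⟩
          have hr0 := hZr.1 hr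
          have hr3 := h2.1 hr2
          refine ⟨hr0, ?_, hr3⟩
          exact π.trans' (hA r (hZ hr0)) hr3
      · obtain ⟨φ1⟩ := Cre F ε Z B
        obtain ⟨φ2⟩ := Cre F ε' (Z.map ψ.toEmbedding) (σ '' B)
        obtain ⟨φ3⟩ := Coi _ _ _ _ hiso
        exact ⟨(φ1.trans φ3).trans φ2.symm⟩
  have hset : ∀ v' : F.Vert ε', {w' : F.Vert ε' | (π.comap σ.symm).r w' v'} =
      σ '' {w | π.r w (σ.symm v')} := by
    intro v'
    ext w'
    constructor
    · intro hw
      exact ⟨σ.symm w', hw, by simp⟩
    · rintro ⟨w, hw, rfl⟩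
      change π.r (σ.symm (σ w)) (σ.symm v')
      rw [Equiv.symm_apply_apply]
      exact hw
  constructor
  · intro hV v'
    exact (mem_congr P _ (hset v')).2 ((key _).1 (hV _))
  · intro hV v
    have h1 := hV (σ v)
    have h2 := (mem_congr P _ (hset (σ v))).1 h1
    rw [Equiv.symm_apply_apply] at h2
    exact (key v).2 h2

end Pool.Agent.HMT.H13
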