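import Pool.Agent.HMT.Stmts

/-!
# HMT row THB: the graphs are bipartite
-/

open scoped Classical

namespace Pool.Agent.HMT.H13

open Pool.Agent.HMT

/-- depth of a vertex of a spider -/
def cx (q T : ℕ) (x : XX q T) : ℕ :=
  (match x.1 with
    | none => 0
    | some (_, a) => a.val + 1) + (if x.2.val = 0 then 0 else 1)

/-- depth of a vertex -/
def col (q T : ℕ) (ε : ℤˣ) : (cf q T).Vert ε → ℕ
  | .inl (_, x) => cx q T x
  | .inr (.inl _) => T + 2
  | .inr (.inr r) => T + 3 + rdep q r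

theorem srel_col (q T : ℕ) (x y : XX q T) (h : srel q T x y) : cx q T y = cx q T x + 1 := by
  obtain ⟨kx, cx'⟩ := x
  obtain ⟨ky, cy⟩ := y
  rcases h with ⟨h1, h2, h3⟩ | ⟨h1, h2, ⟨h3, i, h4⟩ | ⟨i, a, b, h3, h4, h5⟩⟩
  · simp only at h1 h2 h3
    subst h1
    simp [cx, h2, h3]
  · simp only at h1 h2 h3 h4
    subst h3 h4
    simp [cx, h1, h2]
  · simp only at h1 h2 h3 h4
    subst h3 h4
    simp [cx, h1, h2, h5]

theorem rel_col (q T : ℕ) (ε : ℤˣ) (Z : Finset (cf q T).R) (v w : (cf q T).Vert ε)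
    (h : (cf q T).rel ε Z v w) : col q T ε v % 2 ≠ col q T ε w % 2 := by
  match v, w, h with
  | .inl (g, x), .inl (h', y), h =>
    obtain ⟨-, h2⟩ := h
    have h3 : x ≠ y ∧ (srel q T x y ∨ srel q T y x) :=
      (SimpleGraph.fromRel_adj (srel q T) x y).1 h2
    change cx q T x % 2 ≠ cx q T y % 2
    rcases h3.2 with h4 | h4
    · have := srel_col q T x y h4
      omega
    · have := srel_col q T y x h4
      omega
  | .inl (g, x), .inr (.inl j), h =>
    have h1 : x = (⟨some (g.1.symm j, Fin.last T), 0⟩ : XX q T) := h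
    subst h1
    change cx q T ⟨some (g.1.symm j, Fin.last T), 0⟩ % 2 ≠ (T + 2) % 2
    simp only [cx, Fin.val_last, Fin.val_zero, if_true]
    omega
  | .inr p, .inr (.inr r), h =>
    have h1 : p = rpar q r := h.1
    subst h1
    obtain ⟨j, c | ⟨b, c⟩⟩ := r
    · change (T + 2) % 2 ≠ (T + 3 + 0) % 2
      omega
    · by_cases hc : c.val = 0
      · by_cases hb : b.val = 0
        · have h2 : rpar q ⟨j, Sum.inr ⟨b, c⟩⟩ = Sum.inl j := by simp [rpar, hc, hb]
          rw [h2]
          change (T + 2) % 2 ≠ (T + 3 + (b.val + (if c.val = 0 then 0 else 1))) % 2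
          rw [if_pos hc, hb]
          omega
        · have h2 : rpar q ⟨j, Sum.inr ⟨b, c⟩⟩ = Sum.inr ⟨j, Sum.inr
              ⟨⟨b.val - 1, lt_of_le_of_lt (Nat.sub_le _ _) b.isLt⟩, 0⟩⟩ := by
            simp [rpar, hc, hb]
          rw [h2]
          change (T + 3 + (b.val - 1 + (if (0 : ℕ) = 0 then 0 else 1))) % 2 ≠
            (T + 3 + (b.val + (if c.val = 0 then 0 else 1))) % 2
          rw [if_pos hc, if_pos rfl]
          omega
      · have h2 : rpar q ⟨j, Sum.inr ⟨b, c⟩⟩ = Sum.inr ⟨j, Sum.inr ⟨b, 0⟩⟩ := by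
          simp [rpar, hc]
        rw [h2]
        change (T + 3 + (b.val + (if (0 : ℕ) = 0 then 0 else 1))) % 2 ≠
          (T + 3 + (b.val + (if c.val = 0 then 0 else 1))) % 2
        rw [if_neg hc, if_pos rfl]
        omega

/-- THB -/
theorem thb : ThbStmt := by
  intro q T ε Z B
  have C : (((cf q T).Gr ε Z).induce B).Coloring Bool :=
    SimpleGraph.Coloring.mk (fun v => decide (col q T ε v.1 % 2 = 0)) (by
      intro v w hvw
      have h1 : ((cf q T).Gr ε Z).Adj v.1 w.1 := hvw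
      have h2 : v.1 ≠ w.1 ∧ ((cf q T).rel ε Z v.1 w.1 ∨ (cf q T).rel ε Z w.1 v.1) :=
        (SimpleGraph.fromRel_adj _ _ _).1 h1
      have h3 : col q T ε v.1 % 2 ≠ col q T ε w.1 % 2 := by
        rcases h2.2 with h | h
        · exact rel_col q T ε Z _ _ h
        · exact (rel_col q T ε Z _ _ h).symm
      intro h4
      have h5 : (col q T ε v.1 % 2 = 0) ↔ (col q T ε w.1 % 2 = 0) := by
        simpa using h4
      omega)
  have := C.colorable
  simpa using this

end Pool.Agent.HMT.H13
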